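import Pool.Agent.W798.SP.Stm

/-!
# Project SPX, part CC: clusters of consecutive elements of a finite set of reals
-/

set_option autoImplicit false

namespace Pool.Agent.W315.SP

open Finset

theorem t_CC : Pool.Agent.W798.SP.S_CC := by
  classical
  intro S M hM hMS
  obtain ⟨rk, hrk⟩ : ∃ rk : ℝ → ℕ, ∀ a, rk a = (S.filter (fun b => b < a)).card :=
    ⟨fun a => (S.filter (fun b => b < a)).card, fun a => rfl⟩
  have hmono : ∀ a b, a ≤ b → rk a ≤ rk b := by
    intro a b hab
    rw [hrk, hrk]
    apply card_le_card
    intro x hx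
    rw [mem_filter] at hx ⊢
    exact ⟨hx.1, hx.2.trans_le hab⟩
  have hstrict : ∀ a ∈ S, ∀ b, a < b → rk a < rk b := by
    intro a ha b hab
    rw [hrk, hrk]
    apply card_lt_card
    rw [ssubset_iff_of_subset]
    · exact ⟨a, mem_filter.2 ⟨ha, hab⟩, fun h => lt_irrefl a (mem_filter.1 h).2⟩
    · intro x hx
      rw [mem_filter] at hx ⊢
      exact ⟨hx.1, hx.2.trans hab⟩
  have hinj : ∀ a ∈ S, ∀ b ∈ S, rk a = rk b → a = b := by
    intro a ha b hb h
    rcases lt_trichotomy a b with h1 | h1 | h1
    · have := hstrict a ha b h1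
      omega
    · exact h1
    · have := hstrict b hb a h1
      omega
  have hlt : ∀ a ∈ S, rk a < S.card := by
    intro a ha
    rw [hrk]
    apply card_lt_card
    rw [ssubset_iff_of_subset (filter_subset _ _)]
    exact ⟨a, ha, fun h => lt_irrefl a (mem_filter.1 h).2⟩
  have himg : S.image rk = range S.card := by
    apply eq_of_subset_of_card_le
    · intro i hi
      rw [mem_image] at hi
      obtain ⟨a, ha, rfl⟩ := hi
      rw [mem_range]
      exact hlt a ha
    · rw [card_image_of_injOn (fun a ha b hb h => hinj a ha b hb h), card_range]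
  have hex : ∀ i : ℕ, ∃ a : ℝ, i < S.card → a ∈ S ∧ rk a = i := by
    intro i
    by_cases hi : i < S.card
    · have h1 : i ∈ S.image rk := by
        rw [himg, mem_range]
        exact hi
      rw [mem_image] at h1
      obtain ⟨a, ha, h2⟩ := h1
      exact ⟨a, fun _ => ⟨ha, h2⟩⟩
    · exact ⟨0, fun h => absurd h hi⟩
  choose e he using hex
  have helt : ∀ i k, i < k → k < S.card → e i < e k := by
    intro i k hik hk
    by_contra hcon
    push Not at hcon
    have h1 := hmono _ _ hcon
    rw [(he i (by omega)).2, (he k hk).2] at h1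
    omega
  refine ⟨fun a => rk a / M, ?_, ?_, ?_⟩
  · intro a _ b _ hab
    exact Nat.div_le_div_right (hmono a b hab)
  · intro j
    have h1 : (S.filter (fun a => rk a / M = j)).card ≤ (Ico (j * M) (j * M + M)).card := by
      apply card_le_card_of_injOn rk
      · intro a ha
        rw [mem_coe, mem_filter] at ha
        rw [mem_coe, mem_Ico]
        have h2 := Nat.div_add_mod (rk a) M
        have h3 := Nat.mod_lt (rk a) (show 0 < M by omega)
        rw [ha.2, mul_comm] at h2
        omega
      · intro a ha b hb h
        rw [mem_coe, mem_filter] at ha hb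
        exact hinj a ha.1 b hb.1 h
    rw [Nat.card_Ico, Nat.add_sub_cancel_left] at h1
    exact h1
  · obtain ⟨q, hq⟩ : ∃ q, q = S.card / M := ⟨_, rfl⟩
    have hqM : q * M ≤ S.card := by
      rw [hq]
      exact Nat.div_mul_le_self _ _
    have hq1 : 1 ≤ q := by
      rw [hq]
      exact Nat.div_pos hMS (by omega)
    have hqn : S.card < (q + 1) * M := by
      rw [hq]
      have h2 := Nat.div_add_mod S.card M
      have h3 := Nat.mod_lt S.card (show 0 < M by omega)
      rw [add_mul, one_mul, mul_comm]
      omega
    have hcard : ((range q) ×ˢ ((range M).sigma (fun s => range s))).card ≤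
        ((S ×ˢ S).filter (fun p => p.1 < p.2 ∧ rk p.1 / M = rk p.2 / M)).card := by
      apply card_le_card_of_injOn
        (fun t : ℕ × (Σ _ : ℕ, ℕ) => (e (t.1 * M + t.2.2), e (t.1 * M + t.2.1)))
      · rintro ⟨j, ⟨s, r⟩⟩ ht
        rw [mem_coe, mem_product, mem_sigma, mem_range, mem_range, mem_range] at ht
        obtain ⟨hj, hs, hr⟩ := ht
        simp only at hj hs hr
        have h1 : (j + 1) * M ≤ q * M := Nat.mul_le_mul_right _ hj
        rw [add_mul, one_mul] at h1
        have h2 : j * M + s < S.card := by omega
        have h3 : j * M + r < S.card := by omega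
        have h4 : ∀ x, x < M → (j * M + x) / M = j := by
          intro x hx
          rw [mul_comm, Nat.mul_add_div (by omega), Nat.div_eq_of_lt hx, add_zero]
        rw [mem_coe, mem_filter, mem_product]
        refine ⟨⟨(he _ h3).1, (he _ h2).1⟩, helt (j * M + r) (j * M + s) (by omega) h2, ?_⟩
        simp only
        rw [(he _ h3).2, (he _ h2).2, h4 r (by omega), h4 s hs]
      · rintro ⟨j, ⟨s, r⟩⟩ ht ⟨j', ⟨s', r'⟩⟩ ht' h
        rw [mem_coe, mem_product, mem_sigma, mem_range, mem_range, mem_range] at ht ht'
        obtain ⟨hj, hs, hr⟩ := ht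
        obtain ⟨hj', hs', hr'⟩ := ht'
        simp only at hj hs hr hj' hs' hr'
        simp only [Prod.mk.injEq] at h
        have h1 : (j + 1) * M ≤ q * M := Nat.mul_le_mul_right _ hj
        have h1' : (j' + 1) * M ≤ q * M := Nat.mul_le_mul_right _ hj'
        rw [add_mul, one_mul] at h1
        rw [add_mul, one_mul] at h1'
        have e1 : j * M + r = j' * M + r' := by
          rw [← (he (j * M + r) (by omega)).2, ← (he (j' * M + r') (by omega)).2, h.1]
        have e2 : j * M + s = j' * M + s' := by
          rw [← (he (j * M + s) (by omega)).2, ← (he (j' * M + s') (by omega)).2, h.2]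
        have h4 : ∀ (y x : ℕ), x < M → (y * M + x) / M = y := by
          intro y x hx
          rw [mul_comm, Nat.mul_add_div (by omega), Nat.div_eq_of_lt hx, add_zero]
        have e3 : j = j' := by
          rw [← h4 j s hs, ← h4 j' s' hs', e2]
        subst e3
        have e4 : r = r' := by omega
        have e5 : s = s' := by omega
        subst e4 e5
        rfl
    rw [card_product, card_range, card_sigma] at hcard
    simp only [card_range] at hcard
    have hsum := Finset.sum_range_id_mul_two M
    have h5 : S.card * M ≤ 2 * q * M * M := by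
      apply Nat.mul_le_mul_right
      nlinarith
    have h6 : M * M ≤ 2 * (M * (M - 1)) := by
      obtain ⟨m, rfl⟩ := Nat.exists_eq_add_of_le hM
      have : 2 + m - 1 = m + 1 := by omega
      rw [this]
      nlinarith
    have h7 : 2 * q * M * M ≤ 8 * (q * ∑ i ∈ range M, i) := by
      calc 2 * q * M * M = 2 * q * (M * M) := by ring
        _ ≤ 2 * q * (2 * (M * (M - 1))) := Nat.mul_le_mul_left _ h6
        _ = 2 * q * (2 * ((∑ i ∈ range M, i) * 2)) := by rw [hsum]
        _ = 8 * (q * ∑ i ∈ range M, i) := by ring
    calc S.card * M ≤ 2 * q * M * M := h5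
      _ ≤ 8 * (q * ∑ i ∈ range M, i) := h7
      _ ≤ _ := Nat.mul_le_mul_left _ hcard

end Pool.Agent.W315.SP
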